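import Pool.Agent.BSH.Stmts

/-!
# BSH, row SIZ (helper42)

The size of the values of the generator: induction on the number of levels.
-/

set_option autoImplicit false

namespace Pool.Agent.BSH.H42

theorem level_bound (r q M : ℕ) (t : ℕ → ℤ) (ht : ∀ i, (t i).natAbs ≤ 2 ^ M) (i : ℕ) :
    (level r q t i).natAbs ≤ 2 ^ (3 * r ^ 2 + 2 ^ q * M) := by
  have h2 : (1 : ℕ) ≤ 2 := by norm_num
  unfold level
  split_ifs with h h'
  · refine (ht i).trans (Nat.pow_le_pow_right (by norm_num) ?_)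
    have h1 : 1 * M ≤ 2 ^ q * M := Nat.mul_le_mul_right _ Nat.one_le_two_pow
    omega
  · have hs : ∀ m ∈ Finset.range (3 * r),
        ((((m : ℤ) + 1) ^ (i - 3 * r) * t m ^ 2 ^ q).natAbs) ≤
          (3 * r) ^ (r - 1) * 2 ^ (2 ^ q * M) := by
      intro m hm
      rw [Int.natAbs_mul, Int.natAbs_pow, Int.natAbs_pow]
      have h3 : ((m : ℤ) + 1).natAbs = m + 1 := by omega
      rw [h3]
      have hm' := Finset.mem_range.1 hm
      refine Nat.mul_le_mul ?_ ?_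
      · calc (m + 1) ^ (i - 3 * r) ≤ (3 * r) ^ (i - 3 * r) := Nat.pow_le_pow_left (by omega) _
          _ ≤ (3 * r) ^ (r - 1) := Nat.pow_le_pow_right (by omega) (by omega)
      · calc (t m).natAbs ^ 2 ^ q ≤ (2 ^ M) ^ 2 ^ q := Nat.pow_le_pow_left (ht m) _
          _ = 2 ^ (2 ^ q * M) := by rw [← pow_mul, mul_comm]
    have h4 : (∑ m ∈ Finset.range (3 * r), ((m : ℤ) + 1) ^ (i - 3 * r) * t m ^ 2 ^ q).natAbs ≤
        ∑ m ∈ Finset.range (3 * r), (((m : ℤ) + 1) ^ (i - 3 * r) * t m ^ 2 ^ q).natAbs :=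
      Finset.le_sum_of_subadditive Int.natAbs (by simp) Int.natAbs_add_le _ _
    refine h4.trans ((Finset.sum_le_sum hs).trans ?_)
    rw [Finset.sum_const, Finset.card_range, smul_eq_mul, ← mul_assoc, pow_add]
    refine Nat.mul_le_mul_right _ ?_
    have h5 : 3 * r * (3 * r) ^ (r - 1) = (3 * r) ^ r := by
      rw [mul_comm, ← pow_succ]
      congr 1
      omega
    rw [h5]
    calc (3 * r) ^ r ≤ (2 ^ (3 * r)) ^ r := Nat.pow_le_pow_left Nat.lt_two_pow_self.le _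
      _ = 2 ^ (3 * r ^ 2) := by rw [← pow_mul]; congr 1; ring
  · simp

theorem gen_bound (l : ℕ) : ∀ (σ ν N : ℕ) (t : ℕ → ℤ), (∀ i, (t i).natAbs ≤ N) → ∀ i,
    (gen l σ ν t i).natAbs ≤ 2 ^ (2 ^ qq l σ * (l * (4 ^ l * ν) ^ 2 + N)) := by
  induction l with
  | zero =>
    intro σ ν N t ht i
    refine (ht i).trans ?_
    simp only [qq, pow_zero, one_mul, zero_mul, zero_add]
    exact Nat.lt_two_pow_self.le
  | succ l ih =>
    intro σ ν N t ht i
    have h := level_bound (4 ^ l * ν) (7 + 3 * σ)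
      (2 ^ qq l (14 * σ + 28) * (l * (4 ^ l * (3 * ν)) ^ 2 + N)) _
      (ih (14 * σ + 28) (3 * ν) N t ht) i
    refine h.trans (Nat.pow_le_pow_right (by norm_num) ?_)
    have hq : 2 ^ qq (l + 1) σ = 2 ^ (7 + 3 * σ) * 2 ^ qq l (14 * σ + 28) := by
      rw [← pow_add]
      rfl
    have e1 : 4 ^ l * (3 * ν) = 3 * (4 ^ l * ν) := by ring
    have e2 : 4 ^ (l + 1) * ν = 4 * (4 ^ l * ν) := by ring
    rw [hq, e1, e2]
    have hA : 1 ≤ 2 ^ (7 + 3 * σ) := Nat.one_le_two_pow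
    have hB : 1 ≤ 2 ^ qq l (14 * σ + 28) := Nat.one_le_two_pow
    generalize 2 ^ (7 + 3 * σ) = A at *
    generalize 2 ^ qq l (14 * σ + 28) = Q at *
    generalize 4 ^ l * ν = r at *
    have hP : 1 ≤ A * Q := Nat.mul_pos hA hB
    calc 3 * r ^ 2 + A * (Q * (l * (3 * r) ^ 2 + N))
        = 1 * (3 * r ^ 2) + A * Q * (l * (3 * r) ^ 2 + N) := by ring
      _ ≤ A * Q * (3 * r ^ 2) + A * Q * (l * (3 * r) ^ 2 + N) :=
          Nat.add_le_add_right (Nat.mul_le_mul_right _ hP) _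
      _ = A * Q * (3 * r ^ 2 + (l * (3 * r) ^ 2 + N)) := by ring
      _ ≤ A * Q * ((l + 1) * (4 * r) ^ 2 + N) := by
          refine Nat.mul_le_mul_left _ ?_
          nlinarith [Nat.zero_le (l * r ^ 2), Nat.zero_le (r ^ 2)]

/-- Row SIZ. -/
theorem siz : SizStmt := by
  intro l σ ν N ξ hξ i
  refine gen_bound l σ ν N _ (fun j => ?_) i
  unfold ext
  split_ifs with h
  · exact hξ ⟨j, h⟩
  · simp

end Pool.Agent.BSH.H42
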